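import Pool.Agent.H91.UV.TargetsA
import Pool.Agent.H70.SDP.Dual

/-!
# Duality for a product of cones (row UDUAL, MP_c62aed_lc)
-/

set_option autoImplicit false

namespace Pool.Agent.H4.UV

open Finset Matrix Pool.Agent.H91.UV
open Pool.Agent.H1.LP (Clause viol)
open Pool.Agent.H70.SDP (pencil dual)

section blocks

variable {n : ℕ} {o : Fin n → ℕ}

theorem pencil_bd {d : ℕ} (B0 : (i : Fin n) → Matrix (Fin (o i)) (Fin (o i)) ℝ)
    (B : (i : Fin n) → Fin d → Matrix (Fin (o i)) (Fin (o i)) ℝ) (y : Fin d → ℝ) :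
    pencil (blockDiagonal' B0) (fun k => blockDiagonal' fun i => B i k) y =
      blockDiagonal' fun i => B0 i + ∑ k, y k • B i k := by
  unfold pencil
  ext ⟨i, a⟩ ⟨j, b⟩
  rw [Matrix.add_apply, Matrix.sum_apply]
  simp only [Matrix.smul_apply]
  by_cases hij : i = j
  · subst hij
    simp only [blockDiagonal'_apply_eq, Matrix.add_apply, Matrix.sum_apply, Matrix.smul_apply]
  · simp only [blockDiagonal'_apply_ne _ _ _ hij, smul_zero, Finset.sum_const_zero, add_zero]

theorem bd_form (M : (i : Fin n) → Matrix (Fin (o i)) (Fin (o i)) ℝ)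
    (x : (Σ i, Fin (o i)) → ℝ) :
    star x ⬝ᵥ (blockDiagonal' M *ᵥ x) =
      ∑ i, star (fun a => x ⟨i, a⟩) ⬝ᵥ (M i *ᵥ fun a => x ⟨i, a⟩) := by
  simp only [dotProduct, mulVec, Fintype.sum_sigma, Pi.star_apply, star_trivial]
  refine Finset.sum_congr rfl fun i _ => Finset.sum_congr rfl fun a _ => ?_
  congr 1
  rw [Finset.sum_eq_single i]
  · exact Finset.sum_congr rfl fun b _ => by rw [blockDiagonal'_apply_eq]
  · intro j _ hj
    exact Finset.sum_eq_zero fun b _ => by
      rw [blockDiagonal'_apply_ne _ _ _ (Ne.symm hj), zero_mul]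
  · intro h
    exact absurd (Finset.mem_univ _) h

theorem bd_herm {M : (i : Fin n) → Matrix (Fin (o i)) (Fin (o i)) ℝ}
    (h : ∀ i, (M i).IsHermitian) : (blockDiagonal' M).IsHermitian := by
  unfold Matrix.IsHermitian
  rw [blockDiagonal'_conjTranspose]
  congr 1
  funext i
  exact h i

theorem bd_psd {M : (i : Fin n) → Matrix (Fin (o i)) (Fin (o i)) ℝ}
    (h : ∀ i, (M i).PosSemidef) : (blockDiagonal' M).PosSemidef := by
  rw [posSemidef_iff_dotProduct_mulVec]
  refine ⟨bd_herm fun i => (h i).1, fun x => ?_⟩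
  rw [bd_form]
  exact Finset.sum_nonneg fun i _ => (posSemidef_iff_dotProduct_mulVec.1 (h i)).2 _

theorem psd_bd {M : (i : Fin n) → Matrix (Fin (o i)) (Fin (o i)) ℝ}
    (h : (blockDiagonal' M).PosSemidef) (i : Fin n) : (M i).PosSemidef := by
  have h1 := h.submatrix (fun a : Fin (o i) => (⟨i, a⟩ : Σ i, Fin (o i)))
  have h2 : (blockDiagonal' M).submatrix (fun a : Fin (o i) => (⟨i, a⟩ : Σ i, Fin (o i)))
      (fun a : Fin (o i) => (⟨i, a⟩ : Σ i, Fin (o i))) = M i := by
    ext a b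
    rw [submatrix_apply, blockDiagonal'_apply_eq]
  rw [h2] at h1
  exact h1

theorem trace_bd (L : Matrix (Σ i, Fin (o i)) (Σ i, Fin (o i)) ℝ)
    (X : (i : Fin n) → Matrix (Fin (o i)) (Fin (o i)) ℝ) :
    trace (L * blockDiagonal' X) =
      ∑ i, trace (L.submatrix (fun a : Fin (o i) => (⟨i, a⟩ : Σ i, Fin (o i)))
        (fun a : Fin (o i) => (⟨i, a⟩ : Σ i, Fin (o i))) * X i) := by
  simp only [Matrix.trace, Matrix.diag_apply, Matrix.mul_apply, Fintype.sum_sigma,
    submatrix_apply]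
  refine Finset.sum_congr rfl fun i _ => Finset.sum_congr rfl fun a _ => ?_
  rw [Finset.sum_eq_single i]
  · exact Finset.sum_congr rfl fun b _ => by rw [blockDiagonal'_apply_eq]
  · intro j _ hj
    exact Finset.sum_eq_zero fun b _ => by rw [blockDiagonal'_apply_ne _ _ _ hj, mul_zero]
  · intro h
    exact absurd (Finset.mem_univ _) h

end blocks

/-- Row UDUAL. -/
theorem pf_UDUAL (_hS : Pool.Agent.H49.SDP.S_SDUAL) : S_UDUAL := by
  classical
  intro n m P phi de hne h η hη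
  obtain ⟨x0, hx0⟩ := hne
  have key : ∀ y : Fin P.dim → ℝ, ∑ i, P.loss (phi i) y - de =
      ∑ k, (∑ i, P.w (phi i) k) * y k + (∑ i, P.w0 (phi i) - de) := by
    intro y
    unfold URelax.loss
    rw [sum_add_distrib, sum_comm]
    simp only [sum_mul]
    ring
  have hsy : ∀ {r : ℕ} (S : Matrix (Fin r) (Fin r) ℝ), S.IsSymm → S.IsHermitian := by
    intro r S hS
    unfold Matrix.IsHermitian
    rw [conjTranspose_eq_transpose_of_trivial S, hS]
  have hpsd : ∀ x ∈ P.cell, (pencil (blockDiagonal' P.B0)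
      (fun k => blockDiagonal' fun i => P.B i k) (P.pt x)).PosSemidef := by
    intro x hx
    rw [pencil_bd]
    exact bd_psd (P.feas x hx)
  obtain ⟨L, c, hL, hc, hLc⟩ := dual (X := {x // x ∈ P.cell})
    (bd_herm fun i => hsy _ (P.symm0 i)) (fun k => bd_herm fun i => hsy _ (P.symm i k))
    (fun x => P.pt x.1) (P.pt x0) (hpsd x0 hx0) (fun k => ∑ i, P.w (phi i) k)
    (∑ i, P.w0 (phi i) - de) (fun y hy => by
      rw [← key]
      rw [pencil_bd] at hy
      have := h y (psd_bd hy)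
      linarith) η hη
  refine ⟨fun i => L.submatrix (fun a => ⟨i, a⟩) (fun a => ⟨i, a⟩), c,
    fun i => hL.submatrix _, hc, fun x hx => ?_⟩
  have h4 := hLc ⟨x, hx⟩
  rw [pencil_bd, trace_bd, ← key] at h4
  rw [abs_sub_comm]
  refine le_trans (le_of_eq ?_) h4
  congr 1
  ring

end Pool.Agent.H4.UV
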